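import Mathlib

set_option autoImplicit false

namespace Pool.Agent.Results.MP_b8a1e8_lc.NotIncluded

/-- A grammar `(V, T, P, S)`; symbols are natural numbers. -/
structure Grammar where
  V : Finset ℕ
  T : Finset ℕ
  P : Finset (List ℕ × List ℕ)
  S : ℕ
  T_sub : T ⊆ V
  S_mem : S ∈ V \ T
  lhs : ∀ r ∈ P, (∀ a ∈ r.1, a ∈ V) ∧ ∃ A ∈ r.1, A ∈ V \ T
  rhs : ∀ r ∈ P, ∀ a ∈ r.2, a ∈ V

def Grammar.lang (G : Grammar) (ρ : List ℕ → List ℕ → Prop) : Set (List ℕ) :=
  {w | (∀ a ∈ w, a ∈ G.T) ∧ Relation.ReflTransGen ρ [G.S] w}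

def Grammar.Monotonous (G : Grammar) : Prop := ∀ r ∈ G.P, r.1.length ≤ r.2.length

def Grammar.ContextSensitive (G : Grammar) : Prop :=
  ∀ r ∈ G.P, ∃ (α β γ : List ℕ) (A : ℕ), A ∈ G.V \ G.T ∧ γ ≠ [] ∧
    r.1 = α ++ [A] ++ β ∧ r.2 = α ++ γ ++ β

/-- The jumping step. -/
def Grammar.jstep (G : Grammar) (s t : List ℕ) : Prop :=
  ∃ r ∈ G.P, ∃ u v u' v' : List ℕ, s = u ++ r.1 ++ v ∧ t = u' ++ r.2 ++ v' ∧ u ++ v = u' ++ v'

/-- The context-preserving jumping step. -/
def Grammar.bstep (G : Grammar) (s t : List ℕ) : Prop :=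
  ∃ (α β γ : List ℕ) (A : ℕ), A ∈ G.V \ G.T ∧ γ ≠ [] ∧ (α ++ [A] ++ β, α ++ γ ++ β) ∈ G.P ∧
    ∃ u v u' v' : List ℕ, s = u ++ α ++ [A] ++ β ++ v ∧ t = u' ++ α ++ γ ++ β ++ v' ∧
      u ++ α ++ β ++ v = u' ++ α ++ β ++ v'

/-- Terminals `0, 1`; start symbol `2`; rules `2 → 0 3`, `0 3 → 0 3 1`, `0 3 → 0 1`. -/
def G0 : Grammar where
  V := {0, 1, 2, 3}
  T := {0, 1}
  P := {([2], [0, 3]), ([0, 3], [0, 3, 1]), ([0, 3], [0, 1])}
  S := 2
  T_sub := by decide
  S_mem := by decide
  lhs := by decide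
  rhs := by decide

theorem G0_cs : G0.ContextSensitive := by
  intro r hr
  simp only [G0, Finset.mem_insert, Finset.mem_singleton] at hr
  rcases hr with rfl | rfl | rfl
  · exact ⟨[], [], [0, 3], 2, by decide, by simp, rfl, rfl⟩
  · exact ⟨[0], [], [3, 1], 3, by decide, by simp, rfl, rfl⟩
  · exact ⟨[0], [], [1], 3, by decide, by simp, rfl, rfl⟩

theorem reach (n : ℕ) : Relation.ReflTransGen G0.bstep [2] (0 :: 3 :: List.replicate n 1) := by
  induction n with
  | zero =>
    exact .single ⟨[], [], [0, 3], 2, by decide, by simp, by decide, [], [], [], [], rfl, rfl, rfl⟩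
  | succ n ih =>
    exact ih.tail ⟨[0], [], [3, 1], 3, by decide, by simp, by decide, [], List.replicate n 1, [],
      List.replicate n 1, by simp, by simp [List.replicate_succ], rfl⟩

theorem mem_lang (n : ℕ) : (0 :: List.replicate (n + 1) 1) ∈ G0.lang G0.bstep := by
  refine ⟨?_, (reach n).tail ⟨[0], [], [1], 3, by decide, by simp, by decide, [],
    List.replicate n 1, [], List.replicate n 1, by simp, by simp [List.replicate_succ], rfl⟩⟩
  intro a ha
  simp only [List.mem_cons, List.mem_replicate] at ha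
  rcases ha with rfl | ⟨-, rfl⟩ <;> decide

theorem decomp {α β γ : List ℕ} {A : ℕ} (hA : A ∈ G0.V \ G0.T)
    (h : (α ++ [A] ++ β, α ++ γ ++ β) ∈ G0.P) :
    (α = [] ∧ β = [] ∧ A = 2 ∧ γ = [0, 3]) ∨ (α = [0] ∧ β = [] ∧ 2 ∉ γ) := by
  have hA0 : A ≠ 0 := by rintro rfl; revert hA; decide
  simp only [G0, Finset.mem_insert, Finset.mem_singleton, Prod.mk.injEq] at h
  rcases α with _ | ⟨a, _ | ⟨a', α⟩⟩ <;> rcases β with _ | ⟨b, β⟩ <;> simp_all
  rcases h with h | h <;> simp [h]

theorem inv {w : List ℕ} (h : Relation.ReflTransGen G0.bstep [2] w) :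
    w = [2] ∨ (w.head? = some 0 ∧ 2 ∉ w) := by
  induction h with
  | refl => exact Or.inl rfl
  | tail _ hs ih =>
    obtain ⟨α, β, γ, A, hA, -, hP, u, v, u', v', rfl, rfl, huv⟩ := hs
    right
    rcases decomp hA hP with ⟨rfl, rfl, rfl, rfl⟩ | ⟨rfl, rfl, hγ⟩
    · rcases ih with ih | ⟨-, ih⟩
      · have h1 : u = [] ∧ v = [] := by
          have := congrArg List.length ih
          simp only [List.length_append, List.length_nil, List.length_cons] at this
          exact ⟨List.length_eq_zero_iff.1 (by omega), List.length_eq_zero_iff.1 (by omega)⟩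
        obtain ⟨rfl, rfl⟩ := h1
        have h2 : u' = [] ∧ v' = [] := by simpa using huv.symm
        obtain ⟨rfl, rfl⟩ := h2
        simp
      · simp at ih
    · rcases ih with ih | ⟨ih1, ih2⟩
      · have := congrArg List.length ih
        simp only [List.length_append, List.length_nil, List.length_cons] at this
        omega
      · have h2 : 2 ∉ u' ++ [0] ++ [] ++ v' := by
          rw [← huv]; clear huv; simp_all
        have h3 : (u' ++ [0] ++ [] ++ v').head? = some 0 := by
          rw [← huv]; clear huv; cases u <;> simp_all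
        clear huv
        refine ⟨?_, by simp_all⟩
        cases u' <;> simp_all

theorem result : ∃ G : Grammar, G.ContextSensitive ∧
    ∀ H : Grammar, H.Monotonous → H.lang H.jstep ≠ G.lang G.bstep := by
  refine ⟨G0, G0_cs, fun H hH heq => ?_⟩
  have hhead : ∀ w ∈ H.lang H.jstep, w.head? = some 0 := by
    intro w hw
    rw [heq] at hw
    rcases inv hw.2 with rfl | h
    · exact absurd (hw.1 2 (by simp)) (by decide)
    · exact h.1
  obtain ⟨hT, hw⟩ : (0 :: List.replicate (H.P.sup (fun r => r.2.length) + 1) 1) ∈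
      H.lang H.jstep := heq ▸ mem_lang _
  set n := H.P.sup (fun r => r.2.length) with hn
  rcases Relation.ReflTransGen.cases_tail hw with h | ⟨s, hs, r, hr, u, v, u', v', h1, h2, h3⟩
  · have := congrArg List.length h
    simp at this
  · have hle : r.2.length ≤ n := Finset.le_sup (f := fun r : List ℕ × List ℕ => r.2.length) hr
    have hpos : 0 < r.2.length := by
      obtain ⟨A, hA, -⟩ := (H.lhs r hr).2
      exact lt_of_lt_of_le (List.length_pos_of_mem hA) (hH r hr)
    have hlen := congrArg List.length h2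
    simp only [List.length_cons, List.length_replicate, List.length_append] at hlen
    have e1 := hhead (r.2 ++ (u' ++ v')) ⟨fun a ha => hT a (by rw [h2]; simp at ha ⊢; tauto),
      hs.tail ⟨r, hr, u, v, [], u' ++ v', h1, by simp, by simpa using h3⟩⟩
    have e2 := hhead ((u' ++ v') ++ r.2) ⟨fun a ha => hT a (by rw [h2]; simp at ha ⊢; tauto),
      hs.tail ⟨r, hr, u, v, u' ++ v', [], h1, by simp, by simpa using h3⟩⟩
    have c1 : 0 < r.2.count 0 := by
      rw [List.count_pos_iff]
      rcases hr2 : r.2 with _ | ⟨a, l⟩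
      · simp [hr2] at hpos
      · rw [hr2] at e1; simp at e1; simp [e1]
    have c2 : 0 < (u' ++ v').count 0 := by
      rw [List.count_pos_iff]
      rcases hr2 : u' ++ v' with _ | ⟨a, l⟩
      · have := congrArg List.length hr2
        simp only [List.length_append, List.length_nil] at this
        omega
      · rw [hr2] at e2; simp at e2; simp [e2]
    have c3 := congrArg (List.count 0) h2
    simp only [List.count_cons_self, List.count_replicate, List.count_append] at c3 c2
    simp at c3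
    omega

end Pool.Agent.Results.MP_b8a1e8_lc.NotIncluded
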